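import Mathlib

/-!
# The Laplacian of the basis exchange graph of a matroid has spectral gap at least one
-/

namespace Pool.Agent.H13R2.MB

set_option linter.unusedSectionVars false

open Finset

/-- A finite family of `r`-sets with the basis exchange property (the bases of a matroid). -/
structure IsBases {α : Type*} [DecidableEq α] (F : Finset (Finset α)) (r : ℕ) : Prop where
  card : ∀ B ∈ F, B.card = r
  exch : ∀ B ∈ F, ∀ B' ∈ F, ∀ x ∈ B \ B', ∃ y ∈ B' \ B, insert y (B.erase x) ∈ F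

section

variable {α : Type*} [DecidableEq α]

/-- Contraction. -/
def con (F : Finset (Finset α)) (z : α) : Finset (Finset α) :=
  (F.filter (fun B => z ∈ B)).image (fun B => B.erase z)

theorem mem_con {F : Finset (Finset α)} {z : α} {C : Finset α} :
    C ∈ con F z ↔ z ∉ C ∧ insert z C ∈ F := by
  unfold con
  simp only [mem_image, mem_filter]
  constructor
  · rintro ⟨B, ⟨hB, hz⟩, rfl⟩
    exact ⟨notMem_erase z B, by rwa [insert_erase hz]⟩
  · rintro ⟨h1, h2⟩
    exact ⟨insert z C, ⟨h2, mem_insert_self z C⟩, erase_insert h1⟩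

theorem IsBases.con {F : Finset (Finset α)} {r : ℕ} (h : IsBases F (r + 1)) (z : α) :
    IsBases (con F z) r := by
  constructor
  · intro C hC
    obtain ⟨h1, h2⟩ := mem_con.1 hC
    have := h.card _ h2
    rw [card_insert_of_notMem h1] at this
    omega
  · intro C hC C' hC' x hx
    obtain ⟨h1, h2⟩ := mem_con.1 hC
    obtain ⟨h1', h2'⟩ := mem_con.1 hC'
    rw [mem_sdiff] at hx
    have hxz : x ≠ z := fun e => h1 (e ▸ hx.1)
    obtain ⟨y, hy, hF⟩ := h.exch _ h2 _ h2' x (by
      simp only [mem_sdiff, mem_insert, not_or]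
      exact ⟨Or.inr hx.1, hxz, hx.2⟩)
    simp only [mem_sdiff, mem_insert, not_or] at hy
    have hyz : y ≠ z := hy.2.1
    have hyC' : y ∈ C' := by
      rcases hy.1 with h | h
      · exact absurd h hyz
      · exact h
    refine ⟨y, mem_sdiff.2 ⟨hyC', hy.2.2⟩, mem_con.2 ⟨?_, ?_⟩⟩
    · simp only [mem_insert, mem_erase, not_or, not_and]
      exact ⟨fun e => hyz e.symm, fun _ => h1⟩
    · have : insert z (insert y (C.erase x)) = insert y ((insert z C).erase x) := by
        rw [Finset.insert_comm, erase_insert_of_ne hxz.symm]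
      rw [this]
      exact hF

theorem sum_con (F : Finset (Finset α)) (z : α) (φ : Finset α → ℝ) :
    ∑ C ∈ con F z, φ C = ∑ B ∈ F with z ∈ B, φ (B.erase z) := by
  unfold con
  rw [sum_image]
  intro B hB B' hB' e
  simp only [coe_filter, Set.mem_ofPred_eq] at hB hB'
  simp only at e
  rw [← insert_erase hB.2, e, insert_erase hB'.2]

variable [Fintype α]

theorem sum_swap (F : Finset (Finset α)) (ψ : α → Finset α → ℝ) :
    ∑ z, ∑ B ∈ F with z ∈ B, ψ z B = ∑ B ∈ F, ∑ z ∈ B, ψ z B := by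
  refine sum_comm' ?_
  intro z B
  simp only [mem_univ, mem_filter, true_and]
  tauto

/-- The quadratic form `∑_{x ≠ y} w₂(x,y) g x g y`. -/
noncomputable def Q (F : Finset (Finset α)) (g : α → ℝ) : ℝ :=
  ∑ B ∈ F, ((∑ x ∈ B, g x) ^ 2 - ∑ x ∈ B, (g x) ^ 2)

/-- The linear form `∑_x w₁(x) g x`. -/
noncomputable def L (F : Finset (Finset α)) (g : α → ℝ) : ℝ := ∑ B ∈ F, ∑ x ∈ B, g x

/-- The row sums `∑_{x ≠ z} w₂(z,x) g x`. -/
noncomputable def H (F : Finset (Finset α)) (g : α → ℝ) (z : α) : ℝ :=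
  ∑ B ∈ F with z ∈ B, (∑ x ∈ B, g x - g z)

/-- The number of members containing `z`. -/
noncomputable def w (F : Finset (Finset α)) (z : α) : ℝ := ((F.filter (fun B => z ∈ B)).card : ℝ)

theorem w_nonneg (F : Finset (Finset α)) (z : α) : 0 ≤ w F z := Nat.cast_nonneg _

theorem card_con (F : Finset (Finset α)) (z : α) : ((con F z).card : ℝ) = w F z := by
  have := sum_con F z (fun _ => 1)
  simpa [w] using this

omit [Fintype α] in
theorem sum_erase_eq' (g : α → ℝ) {B : Finset α} {z : α} (hz : z ∈ B) :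
    ∑ x ∈ B.erase z, g x = ∑ x ∈ B, g x - g z := by
  rw [← sum_erase_add B g hz]; ring

theorem L_con (F : Finset (Finset α)) (g : α → ℝ) (z : α) : L (con F z) g = H F g z := by
  unfold L H
  rw [sum_con]
  refine sum_congr rfl fun B hB => ?_
  exact sum_erase_eq' g (mem_filter.1 hB).2

theorem L_eq (F : Finset (Finset α)) (g : α → ℝ) : L F g = ∑ x, w F x * g x := by
  unfold L w
  rw [← sum_swap F (fun z _ => g z)]
  refine sum_congr rfl fun x _ => ?_
  simp [mul_comm]

theorem Q_eq (F : Finset (Finset α)) (g : α → ℝ) : Q F g = ∑ z, g z * H F g z := by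
  have : ∑ z, g z * H F g z = ∑ z, ∑ B ∈ F with z ∈ B, g z * (∑ x ∈ B, g x - g z) := by
    refine sum_congr rfl fun z _ => ?_
    rw [H, mul_sum]
  rw [this, sum_swap F (fun z B => g z * (∑ x ∈ B, g x - g z))]
  unfold Q
  refine sum_congr rfl fun B _ => ?_
  simp only [mul_sub, sum_sub_distrib, ← sum_mul]
  ring_nf

theorem sum_Q_con {F : Finset (Finset α)} {r : ℕ} (h : ∀ B ∈ F, B.card = r + 2) (g : α → ℝ) :
    ∑ z, Q (con F z) g = r * Q F g := by
  have : ∀ z, Q (con F z) g = ∑ B ∈ F with z ∈ B,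
      ((∑ x ∈ B, g x - g z) ^ 2 - (∑ x ∈ B, (g x) ^ 2 - (g z) ^ 2)) := by
    intro z
    unfold Q
    rw [sum_con]
    refine sum_congr rfl fun B hB => ?_
    rw [sum_erase_eq' g (mem_filter.1 hB).2, sum_erase_eq' (fun x => (g x) ^ 2) (mem_filter.1 hB).2]
  rw [sum_congr rfl fun z _ => this z,
    sum_swap F (fun z B => ((∑ x ∈ B, g x - g z) ^ 2 - (∑ x ∈ B, (g x) ^ 2 - (g z) ^ 2)))]
  unfold Q
  rw [mul_sum]
  refine sum_congr rfl fun B hB => ?_
  have hc := h B hB
  have e : ∀ z, ((∑ x ∈ B, g x - g z) ^ 2 - (∑ x ∈ B, (g x) ^ 2 - (g z) ^ 2)) =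
      ((∑ x ∈ B, g x) ^ 2 - ∑ x ∈ B, (g x) ^ 2) - 2 * (∑ x ∈ B, g x) * g z + 2 * (g z) ^ 2 := by
    intro z; ring
  simp only [e, sum_add_distrib, sum_sub_distrib, sum_const, hc, ← mul_sum, nsmul_eq_mul]
  push_cast
  ring

/-- The Lorentzian property on mean-zero functions. -/
def Z (F : Finset (Finset α)) : Prop := ∀ g : α → ℝ, L F g = 0 → Q F g ≤ 0

theorem Z.general {F : Finset (Finset α)} {r : ℕ} (hr : 0 < r) (h : ∀ B ∈ F, B.card = r)
    (hZ : Z F) (g : α → ℝ) : (r : ℝ) * F.card * Q F g ≤ (r - 1) * (L F g) ^ 2 := by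
  rcases F.eq_empty_or_nonempty with rfl | hF
  · simp [Q, L]
  have hN : (0 : ℝ) < F.card := by exact_mod_cast hF.card_pos
  have hr' : (0 : ℝ) < r := by exact_mod_cast hr
  set c : ℝ := L F g / (r * F.card) with hc
  have hL1 : ∀ c : ℝ, L F (fun x => g x - c) = L F g - c * (r * F.card) := by
    intro c
    unfold L
    simp only [sum_sub_distrib, sum_const, nsmul_eq_mul]
    congr 1
    rw [sum_congr rfl fun B hB => by rw [h B hB]]
    simp [mul_comm, mul_assoc]
  have h0 : L F (fun x => g x - c) = 0 := by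
    rw [hL1, hc]; field_simp; ring
  have hq := hZ _ h0
  have hQ1 : Q F (fun x => g x - c) = Q F g - 2 * c * (r - 1) * L F g +
      c ^ 2 * (r * (r - 1)) * F.card := by
    unfold Q L
    rw [mul_sum, ← sum_sub_distrib]
    have : c ^ 2 * (r * (r - 1)) * (F.card : ℝ) = ∑ B ∈ F, c ^ 2 * ((r : ℝ) * (r - 1)) := by
      simp [mul_comm]
    rw [this, ← sum_add_distrib]
    refine sum_congr rfl fun B hB => ?_
    have hB' := h B hB
    have e2 : ∀ x, (g x - c) ^ 2 = (g x) ^ 2 - 2 * c * g x + c ^ 2 := by intro x; ring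
    simp only [e2, sum_add_distrib, sum_sub_distrib, sum_const, hB', nsmul_eq_mul, ← mul_sum]
    ring
  rw [hQ1] at hq
  have hcL : L F g = c * (r * F.card) := by rw [hc]; field_simp
  rw [hcL] at hq ⊢
  nlinarith [mul_le_mul_of_nonneg_left hq (mul_pos hr' hN).le]

/-- Abstract spectral step: a symmetric operator with `T ≤ T²` whose eigenvectors with eigenvalue
`≥ 1` are multiples of `e` is nonpositive on the orthogonal complement of `e`. -/
theorem spec {E : Type*} [NormedAddCommGroup E] [InnerProductSpace ℝ E] [FiniteDimensional ℝ E]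
    (T : E →ₗ[ℝ] E) (hT : T.IsSymmetric) (e : E)
    (h1 : ∀ v, inner ℝ v (T v) ≤ inner ℝ (T v) (T v))
    (h2 : ∀ v (l : ℝ), 1 ≤ l → T v = l • v → ∃ c : ℝ, v = c • e)
    (v : E) (hv : inner ℝ v e = 0) : inner ℝ v (T v) ≤ 0 := by
  set b := hT.eigenvectorBasis rfl with hb
  have hbi : ∀ i, T (b i) = (hT.eigenvalues rfl i) • b i := fun i =>
    hT.apply_eigenvectorBasis rfl i
  have e1 : inner ℝ v (T v) = ∑ i, inner ℝ v (b i) * inner ℝ (b i) (T v) :=
    (b.sum_inner_mul_inner v (T v)).symm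
  rw [e1]
  refine Finset.sum_nonpos fun i _ => ?_
  have e2 : inner ℝ (b i) (T v) = hT.eigenvalues rfl i * inner ℝ v (b i) := by
    rw [← hT (b i) v, hbi, real_inner_smul_left, real_inner_comm]
  rw [e2]
  rcases le_or_gt (hT.eigenvalues rfl i) 0 with hl | hl
  · nlinarith [mul_nonneg (sq_nonneg (inner ℝ v (b i))) (neg_nonneg.2 hl)]
  · have h3 := h1 (b i)
    rw [hbi, real_inner_smul_right, real_inner_smul_right, real_inner_smul_left] at h3
    have h4 : inner ℝ (b i) (b i) = (1 : ℝ) := by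
      rw [real_inner_self_eq_norm_sq, b.norm_eq_one]; norm_num
    rw [h4] at h3
    have h5 : 1 ≤ hT.eigenvalues rfl i := by
      by_contra hcon
      push Not at hcon
      nlinarith
    obtain ⟨c, hc⟩ := h2 _ _ h5 (hbi i)
    have : inner ℝ v (b i) = 0 := by
      rw [hc, real_inner_smul_right, hv, mul_zero]
    rw [this]
    simp

/-- The symmetric bilinear form of `Q`. -/
theorem H_bilin (F : Finset (Finset α)) (g h : α → ℝ) :
    ∑ z, h z * H F g z = ∑ B ∈ F, ((∑ x ∈ B, g x) * (∑ x ∈ B, h x) - ∑ x ∈ B, g x * h x) := by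
  have : ∑ z, h z * H F g z = ∑ z, ∑ B ∈ F with z ∈ B, h z * (∑ x ∈ B, g x - g z) := by
    refine sum_congr rfl fun z _ => ?_
    rw [H, mul_sum]
  rw [this, sum_swap F (fun z B => h z * (∑ x ∈ B, g x - g z))]
  refine sum_congr rfl fun B _ => ?_
  simp only [mul_sub, sum_sub_distrib, ← sum_mul]
  rw [mul_comm]
  congr 1
  exact sum_congr rfl fun x _ => mul_comm _ _

theorem H_add (F : Finset (Finset α)) (g h : α → ℝ) (z : α) :
    H F (fun x => g x + h x) z = H F g z + H F h z := by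
  unfold H
  rw [← sum_add_distrib]
  refine sum_congr rfl fun B _ => ?_
  rw [sum_add_distrib]; ring

theorem H_smul (F : Finset (Finset α)) (c : ℝ) (g : α → ℝ) (z : α) :
    H F (fun x => c * g x) z = c * H F g z := by
  unfold H
  rw [mul_sum]
  refine sum_congr rfl fun B _ => ?_
  rw [← mul_sum]; ring

theorem w_pos_of_mem {F : Finset (Finset α)} {B : Finset α} (hB : B ∈ F) {x : α} (hx : x ∈ B) :
    0 < w F x := by
  unfold w
  exact_mod_cast Finset.card_pos.2 ⟨B, mem_filter.2 ⟨hB, hx⟩⟩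

theorem H_congr {F : Finset (Finset α)} {g h : α → ℝ} (e : ∀ x, 0 < w F x → g x = h x) (z : α) :
    H F g z = H F h z := by
  unfold H
  refine sum_congr rfl fun B hB => ?_
  have hB := mem_filter.1 hB
  rw [e z (w_pos_of_mem hB.1 hB.2), sum_congr rfl fun x hx => e x (w_pos_of_mem hB.1 hx)]

theorem H_eq_zero {F : Finset (Finset α)} {z : α} (hz : w F z = 0) (g : α → ℝ) :
    H F g z = 0 := by
  unfold w at hz
  have : F.filter (fun B => z ∈ B) = ∅ := by
    rw [← Finset.card_eq_zero]; exact_mod_cast hz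
  unfold H
  rw [this, sum_empty]

/-- Inner products in coordinates. -/
theorem inner_coord {ι : Type*} [Fintype ι] (u v : EuclideanSpace ℝ ι) :
    inner ℝ u v = ∑ i, u i * v i := by
  rw [PiLp.inner_apply]
  refine sum_congr rfl fun i _ => ?_
  simp [mul_comm]

/-- The normalised adjacency operator. -/
noncomputable def T (F : Finset (Finset α)) (k : ℝ) :
    EuclideanSpace ℝ α →ₗ[ℝ] EuclideanSpace ℝ α where
  toFun v := WithLp.toLp 2 fun z =>
    (k * Real.sqrt (w F z))⁻¹ * H F (fun x => (Real.sqrt (w F x))⁻¹ * v x) z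
  map_add' u v := by
    ext z
    simp only [PiLp.add_apply]
    rw [← mul_add, ← H_add]
    congr 2
    funext x
    ring
  map_smul' c v := by
    ext z
    simp only [PiLp.smul_apply, smul_eq_mul, RingHom.id_apply]
    have := H_smul F c (fun x => (Real.sqrt (w F x))⁻¹ * v x) z
    rw [mul_left_comm, ← this]
    congr 2
    funext x
    ring

theorem T_apply (F : Finset (Finset α)) (k : ℝ) (v : EuclideanSpace ℝ α) (z : α) :
    T F k v z = (k * Real.sqrt (w F z))⁻¹ * H F (fun x => (Real.sqrt (w F x))⁻¹ * v x) z := rfl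

theorem T_inner (F : Finset (Finset α)) (k : ℝ) (u v : EuclideanSpace ℝ α) :
    inner ℝ u (T F k v) = k⁻¹ * ∑ z, ((Real.sqrt (w F z))⁻¹ * u z) *
      H F (fun x => (Real.sqrt (w F x))⁻¹ * v x) z := by
  rw [inner_coord, mul_sum]
  refine sum_congr rfl fun z _ => ?_
  rw [T_apply, mul_inv]
  ring

theorem T_symm (F : Finset (Finset α)) (k : ℝ) : (T F k).IsSymmetric := by
  intro u v
  rw [real_inner_comm, T_inner, T_inner, H_bilin, H_bilin]
  congr 1
  refine sum_congr rfl fun B _ => ?_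
  congr 1
  · ring
  · exact sum_congr rfl fun x _ => mul_comm _ _

/-- Trickling down. -/
theorem trickle {F : Finset (Finset α)} {r : ℕ} (hr : 0 < r) (h : IsBases F (r + 2))
    (hZ : ∀ z, Z (con F z)) : Z F := by
  have hr' : (0 : ℝ) < r := by exact_mod_cast hr
  -- the key inequality
  have key : ∀ g : α → ℝ, Q F g ≤ ((r : ℝ) + 1)⁻¹ * ∑ z, (w F z)⁻¹ * (H F g z) ^ 2 := by
    intro g
    have h1 : ∀ z, Q (con F z) g ≤ (r / (r + 1)) * ((w F z)⁻¹ * (H F g z) ^ 2) := by
      intro z
      rcases (w_nonneg F z).eq_or_lt with h0 | h0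
      · have : con F z = ∅ := by
          rw [← Finset.card_eq_zero]
          have := card_con F z
          rw [← h0] at this
          exact_mod_cast this
        rw [this, ← h0]
        simp [Q]
      · have := (hZ z).general (r := r + 1) (by omega) (h.con z).card g
        rw [card_con, L_con] at this
        push_cast at this
        have e : (r / (r + 1)) * ((w F z)⁻¹ * (H F g z) ^ 2) =
          (r * (H F g z) ^ 2) / ((r + 1) * w F z) := by field_simp
        rw [e, le_div_iff₀ (by positivity)]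
        nlinarith
    have h2 := Finset.sum_le_sum fun z (_ : z ∈ (univ : Finset α)) => h1 z
    rw [sum_Q_con h.card, ← mul_sum] at h2
    have e : (r : ℝ) / (r + 1) = r * ((r : ℝ) + 1)⁻¹ := by rw [div_eq_mul_inv]
    rw [e, mul_assoc] at h2
    exact le_of_mul_le_mul_left h2 hr'
  intro g hg
  set k : ℝ := (r : ℝ) + 1 with hk
  have hkp : 0 < k := by positivity
  set e : EuclideanSpace ℝ α := WithLp.toLp 2 fun z => Real.sqrt (w F z) with he
  set v : EuclideanSpace ℝ α := WithLp.toLp 2 fun z => Real.sqrt (w F z) * g z with hv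
  have hsq : ∀ z, Real.sqrt (w F z) * Real.sqrt (w F z) = w F z := fun z =>
    Real.mul_self_sqrt (w_nonneg F z)
  have hmain := spec (T F k) (T_symm F k) e ?_ ?_ v ?_
  · rw [T_inner] at hmain
    have e1 : ∑ z, ((Real.sqrt (w F z))⁻¹ * v z) *
      H F (fun x => (Real.sqrt (w F x))⁻¹ * v x) z = Q F g := by
      rw [Q_eq]
      refine sum_congr rfl fun z _ => ?_
      have e2 : ∀ x, 0 < w F x → (Real.sqrt (w F x))⁻¹ * v x = g x := by
        intro x hx
        have : Real.sqrt (w F x) ≠ 0 := (Real.sqrt_pos.2 hx).ne'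
        rw [hv]
        simp only
        field_simp
      rw [H_congr (g := fun x => (Real.sqrt (w F x))⁻¹ * v x) (h := g) e2]
      rcases (w_nonneg F z).eq_or_lt with h0 | h0
      · rw [H_eq_zero h0.symm]; ring
      · rw [e2 z h0]
    rw [e1] at hmain
    have : 0 < k⁻¹ := inv_pos.2 hkp
    by_contra hcon
    push Not at hcon
    nlinarith [mul_pos this hcon]
  · intro v
    rw [T_inner, inner_coord, ← Q_eq F (fun x => (Real.sqrt (w F x))⁻¹ * v x)]
    have h3 := key (fun x => (Real.sqrt (w F x))⁻¹ * v x)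
    have h4 : ∑ z, T F k v z * T F k v z = k⁻¹ * (k⁻¹ *
        ∑ z, (w F z)⁻¹ * (H F (fun x => (Real.sqrt (w F x))⁻¹ * v x) z) ^ 2) := by
      rw [mul_sum, mul_sum]
      refine sum_congr rfl fun z _ => ?_
      have h5 : (w F z)⁻¹ = (Real.sqrt (w F z))⁻¹ * (Real.sqrt (w F z))⁻¹ := by
        rw [← mul_inv, hsq]
      rw [T_apply, h5, mul_inv]
      ring
    rw [h4]
    exact mul_le_mul_of_nonneg_left h3 (inv_pos.2 hkp).le
  · intro v l hl hTv
    -- `v` vanishes at loops
    have hv0 : ∀ z, w F z = 0 → v z = 0 := by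
      intro z hz
      have : T F k v z = l * v z := by rw [hTv]; rfl
      rw [T_apply, H_eq_zero hz, mul_zero] at this
      rcases mul_eq_zero.1 this.symm with h | h
      · linarith
      · exact h
    set g : α → ℝ := fun x => (Real.sqrt (w F x))⁻¹ * v x with hgdef
    have hvg : ∀ z, v z = Real.sqrt (w F z) * g z := by
      intro z
      rcases (w_nonneg F z).eq_or_lt with h0 | h0
      · rw [hv0 z h0.symm, ← h0]; simp
      · have : Real.sqrt (w F z) ≠ 0 := (Real.sqrt_pos.2 h0).ne'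
        rw [hgdef]; field_simp
    have h5 : inner ℝ v (T F k v) = k⁻¹ * Q F g := by
      rw [T_inner, Q_eq]
    have h6 : inner ℝ v (T F k v) = l * ∑ z, w F z * (g z) ^ 2 := by
      rw [hTv, real_inner_smul_right, inner_coord]
      congr 1
      refine sum_congr rfl fun z _ => ?_
      rw [hvg z]; linear_combination (g z) ^ 2 * hsq z
    have h7 : ∑ z, w F z * (g z) ^ 2 = ∑ B ∈ F, ∑ x ∈ B, (g x) ^ 2 := by
      rw [← L_eq F (fun x => (g x) ^ 2), L]
    have h8 : ∑ B ∈ F, (((r : ℝ) + 2) * ∑ x ∈ B, (g x) ^ 2 - (∑ x ∈ B, g x) ^ 2) ≤ 0 := by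
      have h9 : Q F g = k * l * ∑ B ∈ F, ∑ x ∈ B, (g x) ^ 2 := by
        have : k⁻¹ * Q F g = l * ∑ B ∈ F, ∑ x ∈ B, (g x) ^ 2 := by rw [← h5, h6, h7]
        rw [mul_assoc, ← this]
        field_simp
      have h10 : ∑ B ∈ F, (((r : ℝ) + 2) * ∑ x ∈ B, (g x) ^ 2 - (∑ x ∈ B, g x) ^ 2) =
          ((r : ℝ) + 1) * ∑ B ∈ F, ∑ x ∈ B, (g x) ^ 2 - Q F g := by
        unfold Q
        rw [mul_sum, ← sum_sub_distrib]
        refine sum_congr rfl fun B _ => ?_
        ring
      rw [h10, h9]
      have h11 : 0 ≤ ∑ B ∈ F, ∑ x ∈ B, (g x) ^ 2 :=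
        sum_nonneg fun _ _ => sum_nonneg fun _ _ => sq_nonneg _
      have : 0 ≤ (k * (l - 1)) * ∑ B ∈ F, ∑ x ∈ B, (g x) ^ 2 :=
        mul_nonneg (mul_nonneg hkp.le (by linarith)) h11
      rw [← hk]
      nlinarith
    have h12 : ∀ B ∈ F, 0 ≤ ((r : ℝ) + 2) * ∑ x ∈ B, (g x) ^ 2 - (∑ x ∈ B, g x) ^ 2 := by
      intro B hB
      have := sq_sum_le_card_mul_sum_sq (s := B) (f := g)
      rw [h.card B hB] at this
      push_cast at this
      linarith
    have h13 : ∀ B ∈ F, ((r : ℝ) + 2) * ∑ x ∈ B, (g x) ^ 2 - (∑ x ∈ B, g x) ^ 2 = 0 :=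
      (sum_eq_zero_iff_of_nonneg h12).1 (le_antisymm h8 (sum_nonneg h12))
    -- `g` is constant on every basis
    have h14 : ∀ B ∈ F, ∀ x ∈ B, ∀ y ∈ B, g x = g y := by
      intro B hB
      have hc := h.card B hB
      set m : ℝ := (∑ x ∈ B, g x) / (r + 2) with hm
      have hr2 : (0 : ℝ) < r + 2 := by positivity
      have h15 : ∑ x ∈ B, (g x - m) ^ 2 = 0 := by
        have e3 : ∀ x, (g x - m) ^ 2 = (g x) ^ 2 - 2 * m * g x + m ^ 2 := by intro x; ring
        simp only [e3, sum_add_distrib, sum_sub_distrib, sum_const, hc, nsmul_eq_mul, ← mul_sum]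
        push_cast
        have e4 : ∑ x ∈ B, g x = m * (r + 2) := by rw [hm]; field_simp
        have := h13 B hB
        rw [e4] at this ⊢
        have h16 : ((r : ℝ) + 2) * (∑ x ∈ B, (g x) ^ 2 - m ^ 2 * (r + 2)) = 0 := by
          linear_combination this
        rcases mul_eq_zero.1 h16 with h17 | h17
        · linarith
        · linear_combination h17
      have h18 : ∀ x ∈ B, (g x - m) ^ 2 = 0 :=
        (sum_eq_zero_iff_of_nonneg fun _ _ => sq_nonneg _).1 h15
      intro x hx y hy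
      have hx' : g x = m := by nlinarith [h18 x hx]
      have hy' : g y = m := by nlinarith [h18 y hy]
      rw [hx', hy']
    -- and the constants agree
    have h19 : ∀ B ∈ F, ∀ B' ∈ F, ∀ x ∈ B, ∀ y ∈ B', g x = g y := by
      intro B hB B' hB' x hx y hy
      by_cases hd : Disjoint B B'
      · have hx' : x ∈ B \ B' := mem_sdiff.2 ⟨hx, fun h' => (disjoint_left.1 hd hx h')⟩
        obtain ⟨y', hy', hF⟩ := h.exch B hB B' hB' x hx'
        have hcard : 0 < (B.erase x).card := by
          rw [card_erase_of_mem hx, h.card B hB]; omega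
        obtain ⟨u, hu⟩ := Finset.card_pos.1 hcard
        rw [h14 B hB x hx u (mem_of_mem_erase hu),
          h14 _ hF u (mem_insert_of_mem hu) y' (mem_insert_self _ _),
          h14 B' hB' y' (mem_sdiff.1 hy').1 y hy]
      · obtain ⟨u, hu, hu'⟩ := Finset.not_disjoint_iff.1 hd
        rw [h14 B hB x hx u hu, h14 B' hB' u hu' y hy]
    rcases F.eq_empty_or_nonempty with h20 | ⟨B₀, hB₀⟩
    · refine ⟨0, ?_⟩
      ext z
      have : w F z = 0 := by rw [h20]; simp [w]
      simp [hv0 z this]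
    · have hcard : 0 < B₀.card := by rw [h.card B₀ hB₀]; omega
      obtain ⟨u, hu⟩ := Finset.card_pos.1 hcard
      refine ⟨g u, ?_⟩
      ext z
      rw [hvg z]
      simp only [PiLp.smul_apply, smul_eq_mul, he]
      rcases (w_nonneg F z).eq_or_lt with h0 | h0
      · rw [← h0]; simp
      · have : 0 < (F.filter (fun B => z ∈ B)).card := by
          unfold w at h0; exact_mod_cast h0
        obtain ⟨B, hB⟩ := Finset.card_pos.1 this
        have hB := mem_filter.1 hB
        rw [h19 B hB.1 B₀ hB₀ z hB.2 u hu]; ring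
  · rw [inner_coord]
    rw [L_eq] at hg
    rw [← hg]
    refine sum_congr rfl fun z _ => ?_
    rw [← hsq z, hv, he]
    simp only
    ring

end

end Pool.Agent.H13R2.MB
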