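import Pool.Agent.H13R2.MB.Gap

namespace Pool.Agent.H13R2.MB

set_option linter.unusedSectionVars false

open Finset

variable {α : Type*} [DecidableEq α] [Fintype α]

theorem adj_iff {F : Finset (Finset α)} {x z : α} :
    ({x} : Finset α) ∈ con F z ↔ x ≠ z ∧ ({z, x} : Finset α) ∈ F := by
  rw [mem_con, mem_singleton]
  constructor
  · rintro ⟨h1, h2⟩; exact ⟨fun e => h1 e.symm, h2⟩
  · rintro ⟨h1, h2⟩; exact ⟨fun e => h1 e.symm, h2⟩

theorem adj_symm {F : Finset (Finset α)} {x z : α} (h : ({x} : Finset α) ∈ con F z) :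
    ({z} : Finset α) ∈ con F x := by
  rw [adj_iff] at h ⊢
  exact ⟨h.1.symm, by rw [pair_comm]; exact h.2⟩

theorem adj_trans {F : Finset (Finset α)} (h : IsBases F 2) {x y z : α} (hy : 0 < w F y)
    (hxz : ({x} : Finset α) ∈ con F z) :
    ({x} : Finset α) ∈ con F y ∨ ({y} : Finset α) ∈ con F z := by
  by_cases e1 : y = x
  · right; rw [e1]; exact hxz
  by_cases e2 : y = z
  · left; rw [e2]; exact hxz
  rw [adj_iff] at hxz
  have : 0 < (F.filter (fun B => y ∈ B)).card := by unfold w at hy; exact_mod_cast hy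
  obtain ⟨B, hB⟩ := Finset.card_pos.1 this
  obtain ⟨hB, hyB⟩ := mem_filter.1 hB
  have hc := h.card B hB
  have hc1 : (B.erase y).card = 1 := by rw [card_erase_of_mem hyB, hc]
  obtain ⟨u, hu⟩ := Finset.card_eq_one.1 hc1
  have hBe : B = {y, u} := by rw [← insert_erase hyB, hu]
  have huB : u ∈ B := by rw [hBe]; simp
  have hyu : y ≠ u := by
    intro e
    have : u ∈ B.erase y := by rw [hu]; simp
    exact (mem_erase.1 this).1 e.symm
  by_cases e3 : u = x
  · left
    rw [adj_iff]
    exact ⟨fun e => e1 e.symm, by rw [← e3, ← hBe]; exact hB⟩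
  by_cases e4 : u = z
  · right
    rw [adj_iff, pair_comm]
    exact ⟨e2, by rw [← e4, ← hBe]; exact hB⟩
  have hu' : u ∈ B \ {z, x} := by
    rw [mem_sdiff]
    exact ⟨huB, by simp [e3, e4]⟩
  obtain ⟨t, ht, hF⟩ := h.exch B hB _ hxz.2 u hu'
  have hBu : B.erase u = {y} := by
    rw [hBe]
    ext v
    simp only [mem_erase, mem_insert, mem_singleton]
    constructor
    · rintro ⟨h1, h2 | h2⟩
      · exact h2
      · exact absurd h2 h1
    · rintro rfl
      exact ⟨hyu, Or.inl rfl⟩
  rw [hBu] at hF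
  rw [mem_sdiff] at ht
  rcases mem_insert.1 ht.1 with h1 | h1
  · right
    rw [adj_iff, ← h1]
    refine ⟨fun e => ht.2 (e ▸ hyB), hF⟩
  · left
    rw [mem_singleton] at h1
    rw [adj_iff, ← h1]
    refine ⟨fun e => ht.2 (e ▸ hyB), ?_⟩
    rw [pair_comm]; exact hF

theorem H_two {F : Finset (Finset α)} (h : IsBases F 2) (g : α → ℝ) (z : α) :
    H F g z = ∑ x, if ({x} : Finset α) ∈ con F z then g x else 0 := by
  rw [← L_con, L_eq]
  refine sum_congr rfl fun x _ => ?_
  have hcard := (h.con z).card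
  by_cases hx : ({x} : Finset α) ∈ con F z
  · rw [if_pos hx]
    have : (con F z).filter (fun B => x ∈ B) = {{x}} := by
      ext C
      simp only [mem_filter, mem_singleton]
      constructor
      · rintro ⟨h1, h2⟩
        have := hcard C h1
        obtain ⟨a, ha⟩ := Finset.card_eq_one.1 this
        rw [ha] at h2 ⊢
        rw [mem_singleton.1 h2]
      · rintro rfl
        exact ⟨hx, by simp⟩
    unfold w
    rw [this]; simp
  · rw [if_neg hx]
    have : (con F z).filter (fun B => x ∈ B) = ∅ := by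
      ext C
      simp only [mem_filter, notMem_empty, iff_false, not_and]
      intro h1 h2
      have := hcard C h1
      obtain ⟨a, ha⟩ := Finset.card_eq_one.1 this
      rw [ha] at h2 h1
      rw [mem_singleton.1 h2] at hx
      exact hx h1
    unfold w
    rw [this]; simp

/-- Rank two. -/
theorem Z_two {F : Finset (Finset α)} (h : IsBases F 2) : Z F := by
  intro g hg
  classical
  set V : Finset α := univ.filter (fun x => 0 < w F x) with hV
  clear_value V
  set N : α → Finset α := fun z => V.filter (fun x => ({x} : Finset α) ∉ con F z) with hN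
  set G : α → ℝ := fun z => ∑ x ∈ N z, g x with hG
  set n : α → ℝ := fun z => ((N z).card : ℝ) with hn
  have hVout : ∀ z, z ∉ V → w F z = 0 := by
    intro z hz
    simp only [hV, mem_filter, mem_univ, true_and, not_lt] at hz
    exact le_antisymm hz (w_nonneg F z)
  have hAV : ∀ {x z}, ({x} : Finset α) ∈ con F z → x ∈ V := by
    intro x z hx
    rw [adj_iff] at hx
    simp only [hV, mem_filter, mem_univ, true_and]
    exact w_pos_of_mem hx.2 (by simp)
  have hHz : ∀ (f : α → ℝ) z, H F f z = ∑ x ∈ V, f x - ∑ x ∈ N z, f x := by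
    intro f z
    rw [H_two h, hN]
    simp only
    rw [sum_filter, ← sum_sub_distrib]
    have : ∑ x, (if ({x} : Finset α) ∈ con F z then f x else 0) =
        ∑ x ∈ V, (if ({x} : Finset α) ∈ con F z then f x else 0) := by
      symm
      refine sum_subset (subset_univ _) fun x _ hx => ?_
      rw [if_neg fun h' => hx (hAV h')]
    rw [this]
    refine sum_congr rfl fun x _ => ?_
    by_cases hx : ({x} : Finset α) ∈ con F z <;> simp [hx]
  have hw : ∀ z, w F z = (V.card : ℝ) - n z := by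
    intro z
    have h1 : H F (fun _ => 1) z = w F z := by
      unfold H w
      rw [sum_congr rfl (g := fun _ => (1 : ℝ))]
      · simp
      · intro B hB
        rw [sum_const, h.card B (mem_filter.1 hB).1]; norm_num
    rw [← h1, hHz]
    simp [hn]
  have hsumV : ∀ f : α → ℝ, (∀ z, w F z = 0 → f z = 0) → ∑ z, f z = ∑ z ∈ V, f z := by
    intro f hf
    symm
    exact sum_subset (subset_univ _) fun x _ hx => hf x (hVout x hx)
  have hLV : (V.card : ℝ) * ∑ z ∈ V, g z = ∑ z ∈ V, n z * g z := by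
    have h1 : ∑ z ∈ V, w F z * g z = 0 := by
      rw [← hsumV (fun z => w F z * g z) (fun z hz => by rw [hz, zero_mul]), ← L_eq]
      exact hg
    have h2 : ∑ z ∈ V, w F z * g z = (V.card : ℝ) * ∑ z ∈ V, g z - ∑ z ∈ V, n z * g z := by
      rw [mul_sum, ← sum_sub_distrib]
      refine sum_congr rfl fun z _ => ?_
      rw [hw]; ring
    linarith
  have hQV : Q F g = (∑ z ∈ V, g z) ^ 2 - ∑ z ∈ V, g z * G z := by
    rw [Q_eq, hsumV (fun z => g z * H F g z) (fun z hz => by rw [H_eq_zero hz, mul_zero])]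
    simp only [hHz, mul_sub, sum_sub_distrib, ← sum_mul]
    rw [← pow_two]
  -- the relation
  have hsymm : ∀ {x z}, x ∈ V → z ∈ V → (x ∈ N z ↔ z ∈ N x) := by
    intro x z hx hz
    simp only [hN, mem_filter, hx, hz, true_and]
    exact ⟨fun h1 h2 => h1 (adj_symm h2), fun h1 h2 => h1 (adj_symm h2)⟩
  have hself : ∀ {x}, x ∈ V → x ∈ N x := by
    intro x hx
    simp only [hN, mem_filter, hx, true_and]
    intro h1
    exact (adj_iff.1 h1).1 rfl
  have hclass : ∀ {x z}, x ∈ V → z ∈ V → x ∈ N z → N x = N z := by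
    have aux : ∀ {x z}, x ∈ V → z ∈ V → x ∈ N z → N x ⊆ N z := by
      intro x z hx hz hxz y hy
      simp only [hN, mem_filter] at hy hxz ⊢
      refine ⟨hy.1, fun hyz => ?_⟩
      have hxw : 0 < w F x := by simpa [hV] using hx
      rcases adj_trans h hxw hyz with h1 | h1
      · exact hy.2 h1
      · exact hxz.2 h1
    intro x z hx hz hxz
    exact Subset.antisymm (aux hx hz hxz) (aux hz hx ((hsymm hx hz).1 hxz))
  have hNV : ∀ z, N z ⊆ V := fun z => filter_subset _ _
  have hnpos : ∀ z ∈ V, 0 < n z := fun z hz => by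
    simp only [hn]; exact_mod_cast Finset.card_pos.2 ⟨z, hself hz⟩
  -- double counting
  have hdc : ∀ f : α → α → ℝ, ∑ z ∈ V, ∑ x ∈ N z, f z x = ∑ x ∈ V, ∑ z ∈ N x, f z x := by
    intro f
    refine sum_comm' ?_
    intro z x
    constructor
    · rintro ⟨h1, h2⟩
      have hx := hNV z h2
      exact ⟨(hsymm hx h1).1 h2, hx⟩
    · rintro ⟨h1, h2⟩
      have hz := hNV x h1
      exact ⟨hz, (hsymm h2 hz).2 h1⟩
  have hS1 : ∑ z ∈ V, n z * g z = ∑ z ∈ V, G z := by
    simp only [hG]
    rw [hdc (fun _ x => g x)]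
    refine sum_congr rfl fun x _ => ?_
    simp [hn]
  have hS2 : ∑ z ∈ V, (G z) ^ 2 / n z = ∑ z ∈ V, g z * G z := by
    have h1 : ∀ z, (G z) ^ 2 / n z = ∑ x ∈ N z, (G z / n z) * g x := by
      intro z
      rw [← mul_sum]
      simp only [hG]
      ring
    rw [sum_congr rfl fun z _ => h1 z, hdc (fun z x => (G z / n z) * g x)]
    refine sum_congr rfl fun x hx => ?_
    have h2 : ∀ z ∈ N x, (G z / n z) * g x = (G x / n x) * g x := by
      intro z hz
      have := hclass (hNV x hz) hx hz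
      simp only [hG, hn, this]
    rw [sum_congr rfl h2, sum_const, nsmul_eq_mul]
    have := hnpos x hx
    have h3 : ((N x).card : ℝ) = n x := rfl
    rw [h3]
    field_simp
  -- Cauchy-Schwarz
  have hCS : (∑ z ∈ V, G z) ^ 2 ≤ (∑ z ∈ V, n z) * ∑ z ∈ V, (G z) ^ 2 / n z := by
    have h1 := Finset.sum_sq_le_sum_mul_sum_of_sq_le_mul V (r := G) (f := n)
      (g := fun z => (G z) ^ 2 / n z) (fun z hz => (hnpos z hz).le)
      (fun z hz => div_nonneg (sq_nonneg _) (hnpos z hz).le) (fun z hz => le_of_eq (by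
        have := hnpos z hz
        field_simp))
    exact h1
  have hnle : ∑ z ∈ V, n z ≤ (V.card : ℝ) * V.card := by
    calc ∑ z ∈ V, n z ≤ ∑ z ∈ V, (V.card : ℝ) := by
          refine sum_le_sum fun z _ => ?_
          simp only [hn]; exact_mod_cast card_le_card (hNV z)
      _ = _ := by simp
  have hpos : 0 ≤ ∑ z ∈ V, (G z) ^ 2 / n z :=
    sum_nonneg fun z hz => div_nonneg (sq_nonneg _) (hnpos z hz).le
  rw [hQV]
  rw [← hLV] at hS1
  rw [← hS1] at hCS
  rw [hS2] at hCS hpos
  rcases V.eq_empty_or_nonempty with hVe | hVn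
  · rw [hVe]; simp
  · have hs : (0 : ℝ) < V.card := by exact_mod_cast hVn.card_pos
    have h1 : ((V.card : ℝ) * ∑ z ∈ V, g z) ^ 2 ≤ ((V.card : ℝ) * V.card) * ∑ z ∈ V, g z * G z :=
      hCS.trans (mul_le_mul_of_nonneg_right hnle hpos)
    have h2 : ((V.card : ℝ) * V.card) * ((∑ z ∈ V, g z) ^ 2 - ∑ z ∈ V, g z * G z) ≤ 0 := by
      nlinarith
    by_contra hcon
    push Not at hcon
    nlinarith [mul_pos (mul_pos hs hs) hcon]

/-- Every matroid of rank at least two is Lorentzian on mean-zero functions. -/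
theorem Z_all : ∀ (r : ℕ) (F : Finset (Finset α)), IsBases F (r + 2) → Z F
  | 0, _, h => Z_two h
  | r + 1, F, h => trickle (Nat.succ_pos r) h fun z => Z_all r (con F z) (h.con z)

/-- The exchange form. -/
noncomputable def G (F : Finset (Finset α)) (f : Finset α → ℝ) : ℝ :=
  ∑ B ∈ F, ∑ C ∈ F with (B \ C).card = 1, (f B - f C) ^ 2

theorem sum_G_con {F : Finset (Finset α)} {r : ℕ} (h : IsBases F (r + 1)) (f : Finset α → ℝ) :
    ∑ z, G (con F z) (fun C => f (insert z C)) = r * G F f := by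
  have h1 : ∀ z, G (con F z) (fun C => f (insert z C)) =
      ∑ B ∈ F with z ∈ B, ∑ C ∈ F with (z ∈ C ∧ (B \ C).card = 1), (f B - f C) ^ 2 := by
    intro z
    unfold G
    rw [sum_con]
    refine sum_congr rfl fun B hB => ?_
    have hzB := (mem_filter.1 hB).2
    beta_reduce
    rw [insert_erase hzB]
    rw [sum_filter, sum_con, sum_filter, sum_filter]
    refine sum_congr rfl fun C _ => ?_
    by_cases hzC : z ∈ C
    · have e1 : B.erase z \ C.erase z = B \ C := by
        ext x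
        simp only [mem_sdiff, mem_erase, not_and]
        constructor
        · rintro ⟨⟨h1, h2⟩, h3⟩
          exact ⟨h2, fun h4 => h3 h1 h4⟩
        · rintro ⟨h1, h2⟩
          refine ⟨⟨?_, h1⟩, fun _ h4 => h2 h4⟩
          rintro rfl
          exact h2 hzC
      rw [e1, insert_erase hzC]
      simp [hzC]
    · simp [hzC]
  rw [sum_congr rfl fun z _ => h1 z,
    sum_swap F (fun z B => ∑ C ∈ F with (z ∈ C ∧ (B \ C).card = 1), (f B - f C) ^ 2)]
  unfold G
  rw [mul_sum]
  refine sum_congr rfl fun B hB => ?_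
  rw [mul_sum]
  have h2 : ∑ z ∈ B, ∑ C ∈ F with (z ∈ C ∧ (B \ C).card = 1), (f B - f C) ^ 2 =
      ∑ C ∈ F with (B \ C).card = 1, ∑ z ∈ B with z ∈ C, (f B - f C) ^ 2 := by
    refine sum_comm' ?_
    intro z C
    simp only [mem_filter]
    tauto
  rw [h2]
  refine sum_congr rfl fun C hC => ?_
  have hC := (mem_filter.1 hC).2
  rw [sum_const, nsmul_eq_mul]
  congr 1
  have e1 : B.filter (fun z => z ∈ C) = B ∩ C := by
    ext z; simp
  rw [e1]
  have e2 := card_sdiff_add_card_inter B C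
  rw [hC, h.card B hB] at e2
  have : (B ∩ C).card = r := by omega
  exact_mod_cast this

/-- Local-to-global: the projection to the ground set loses a factor `1 / rank`. -/
theorem proj_le {F : Finset (Finset α)} {r : ℕ} (hc : ∀ B ∈ F, B.card = r) (hZ : Z F)
    (f : Finset α → ℝ) (hf : ∑ B ∈ F, f B = 0) :
    ∑ z, (w F z)⁻¹ * (∑ B ∈ F with z ∈ B, f B) ^ 2 ≤ ∑ B ∈ F, (f B) ^ 2 := by
  set g : α → ℝ := fun z => (w F z)⁻¹ * ∑ B ∈ F with z ∈ B, f B with hg
  have hgw : ∀ z, w F z * g z = ∑ B ∈ F with z ∈ B, f B := by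
    intro z
    rcases (w_nonneg F z).eq_or_lt with h0 | h0
    · have : F.filter (fun B => z ∈ B) = ∅ := by
        rw [← Finset.card_eq_zero]
        unfold w at h0
        exact_mod_cast h0.symm
      rw [this, ← h0]; simp
    · rw [hg]; field_simp
  set S : ℝ := ∑ z, (w F z)⁻¹ * (∑ B ∈ F with z ∈ B, f B) ^ 2 with hS
  have hS1 : S = ∑ z, w F z * (g z) ^ 2 := by
    rw [hS]
    refine sum_congr rfl fun z _ => ?_
    rcases (w_nonneg F z).eq_or_lt with h0 | h0
    · rw [← h0]; simp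
    · rw [← hgw]; field_simp
  have hS2 : S = ∑ B ∈ F, f B * ∑ x ∈ B, g x := by
    rw [hS1]
    have : ∀ z, w F z * (g z) ^ 2 = ∑ B ∈ F with z ∈ B, f B * g z := by
      intro z
      rw [← sum_mul, ← hgw]; ring
    rw [sum_congr rfl fun z _ => this z, sum_swap F (fun z B => f B * g z)]
    refine sum_congr rfl fun B _ => ?_
    rw [mul_sum]
  have hL : L F g = 0 := by
    rw [L_eq, sum_congr rfl fun z _ => hgw z, sum_swap F (fun _ B => f B)]
    have : ∀ B ∈ F, ∑ _z ∈ B, f B = r * f B := by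
      intro B hB
      rw [sum_const, hc B hB, nsmul_eq_mul]
    rw [sum_congr rfl this, ← mul_sum, hf, mul_zero]
  have hQ := hZ g hL
  have hS3 : ∑ B ∈ F, (∑ x ∈ B, g x) ^ 2 ≤ S := by
    have h1 : S = ∑ B ∈ F, ∑ x ∈ B, (g x) ^ 2 := by
      rw [hS1, ← L_eq F (fun z => (g z) ^ 2), L]
    unfold Q at hQ
    rw [sum_sub_distrib] at hQ
    linarith
  have hCS := Finset.sum_mul_sq_le_sq_mul_sq F f (fun B => ∑ x ∈ B, g x)
  rw [← hS2] at hCS
  have hS0 : 0 ≤ S := by
    rw [hS1]; exact sum_nonneg fun z _ => mul_nonneg (w_nonneg F z) (sq_nonneg _)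
  have hf0 : 0 ≤ ∑ B ∈ F, (f B) ^ 2 := sum_nonneg fun _ _ => sq_nonneg _
  rcases hS0.eq_or_lt with h0 | h0
  · rw [← h0]; exact hf0
  · have h1 : S ^ 2 ≤ (∑ B ∈ F, (f B) ^ 2) * S :=
      hCS.trans (mul_le_mul_of_nonneg_left hS3 hf0)
    nlinarith

theorem sum_sq_sub_mean (F : Finset (Finset α)) (f : Finset α → ℝ) (c : ℝ) :
    (F.card : ℝ) * ∑ B ∈ F, (f B - c) ^ 2 - (∑ B ∈ F, (f B - c)) ^ 2 =
      (F.card : ℝ) * ∑ B ∈ F, (f B) ^ 2 - (∑ B ∈ F, f B) ^ 2 := by
  have e : ∀ B, (f B - c) ^ 2 = (f B) ^ 2 - 2 * c * f B + c ^ 2 := by intro B; ring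
  simp only [e, sum_add_distrib, sum_sub_distrib, sum_const, ← mul_sum, nsmul_eq_mul]
  ring

theorem G_sub_const (F : Finset (Finset α)) (f : Finset α → ℝ) (c : ℝ) :
    G F (fun B => f B - c) = G F f := by
  unfold G
  refine sum_congr rfl fun B _ => sum_congr rfl fun C _ => ?_
  ring

/-- **Spectral gap of the basis exchange graph**: the variance is at most half the exchange form. -/
theorem gap : ∀ (r : ℕ) (F : Finset (Finset α)), IsBases F r → ∀ f : Finset α → ℝ,
    (F.card : ℝ) * ∑ B ∈ F, (f B) ^ 2 - (∑ B ∈ F, f B) ^ 2 ≤ (F.card : ℝ) * (G F f / 2)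
  | 0, F, h, f => by
    have hG : 0 ≤ G F f := sum_nonneg fun _ _ => sum_nonneg fun _ _ => sq_nonneg _
    have hF : F ⊆ {∅} := by
      intro B hB
      rw [mem_singleton, ← card_eq_zero]
      exact h.card B hB
    have hN : (0 : ℝ) ≤ F.card := Nat.cast_nonneg _
    rcases Finset.subset_singleton_iff.1 hF with h0 | h0
    · subst h0; simp
    · subst h0
      have : 0 ≤ (({∅} : Finset (Finset α)).card : ℝ) * (G {∅} f / 2) := by positivity
      simpa using this
  | 1, F, h, f => by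
    have hG : G F f = ∑ B ∈ F, ∑ C ∈ F, (f B - f C) ^ 2 := by
      unfold G
      refine sum_congr rfl fun B hB => ?_
      rw [sum_filter]
      refine sum_congr rfl fun C hC => ?_
      by_cases hBC : B = C
      · subst hBC; simp
      · rw [if_pos]
        obtain ⟨b, hb⟩ := card_eq_one.1 (h.card B hB)
        obtain ⟨c, hc⟩ := card_eq_one.1 (h.card C hC)
        subst hb hc
        have hne : b ≠ c := fun e => hBC (by rw [e])
        have : ({b} : Finset α) \ {c} = {b} := by
          rw [Finset.sdiff_eq_self_iff_disjoint]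
          simp [hne]
        rw [this, card_singleton]
    rcases F.eq_empty_or_nonempty with hF | hF
    · subst hF; simp
    have hN : (1 : ℝ) ≤ F.card := by exact_mod_cast hF.card_pos
    have h1 : ∑ B ∈ F, ∑ C ∈ F, (f B - f C) ^ 2 =
        2 * ((F.card : ℝ) * ∑ B ∈ F, (f B) ^ 2 - (∑ B ∈ F, f B) ^ 2) := by
      have e : ∀ B C, (f B - f C) ^ 2 = (f B) ^ 2 - 2 * (f B * f C) + (f C) ^ 2 := by
        intro B C; ring
      simp only [e, sum_add_distrib, sum_sub_distrib, sum_const, ← mul_sum, nsmul_eq_mul,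
        ← sum_mul]
      ring
    rw [hG, h1]
    have h2 : 0 ≤ (F.card : ℝ) * ∑ B ∈ F, (f B) ^ 2 - (∑ B ∈ F, f B) ^ 2 := by
      have : 0 ≤ ∑ B ∈ F, ∑ C ∈ F, (f B - f C) ^ 2 :=
        sum_nonneg fun _ _ => sum_nonneg fun _ _ => sq_nonneg _
      rw [h1] at this
      linarith
    nlinarith
  | r + 2, F, h, f => by
    rcases F.eq_empty_or_nonempty with hF | hF
    · subst hF; simp
    have hN : (0 : ℝ) < F.card := by exact_mod_cast hF.card_pos
    -- reduce to mean zero
    set c : ℝ := (∑ B ∈ F, f B) / F.card with hc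
    set f₀ : Finset α → ℝ := fun B => f B - c with hf₀
    have h0 : ∑ B ∈ F, f₀ B = 0 := by
      simp only [hf₀, sum_sub_distrib, sum_const, nsmul_eq_mul, hc]
      field_simp; ring
    rw [← sum_sq_sub_mean F f c, ← G_sub_const F f c]
    have hf0' : (∑ B ∈ F, (f B - c)) = 0 := h0
    rw [hf0']
    change (F.card : ℝ) * ∑ B ∈ F, (f₀ B) ^ 2 - 0 ^ 2 ≤ (F.card : ℝ) * (G F f₀ / 2)
    have hZ := Z_all r F h
    have hproj := proj_le h.card hZ f₀ h0
    -- the induction hypothesis for all contractions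
    have hind : ∀ z, ∑ B ∈ F with z ∈ B, (f₀ B) ^ 2 - (w F z)⁻¹ * (∑ B ∈ F with z ∈ B, f₀ B) ^ 2 ≤
        G (con F z) (fun C => f₀ (insert z C)) / 2 := by
      intro z
      have := gap (r + 1) (con F z) (h.con z) (fun C => f₀ (insert z C))
      rw [card_con, sum_con, sum_con] at this
      have e1 : ∑ B ∈ F with z ∈ B, (f₀ (insert z (B.erase z))) ^ 2 =
          ∑ B ∈ F with z ∈ B, (f₀ B) ^ 2 := by
        refine sum_congr rfl fun B hB => ?_
        rw [insert_erase (mem_filter.1 hB).2]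
      have e2 : ∑ B ∈ F with z ∈ B, f₀ (insert z (B.erase z)) =
          ∑ B ∈ F with z ∈ B, f₀ B := by
        refine sum_congr rfl fun B hB => ?_
        rw [insert_erase (mem_filter.1 hB).2]
      rw [e1, e2] at this
      rcases (w_nonneg F z).eq_or_lt with hw | hw
      · have he : F.filter (fun B => z ∈ B) = ∅ := by
          rw [← Finset.card_eq_zero]
          unfold w at hw
          exact_mod_cast hw.symm
        rw [he, ← hw]
        have hG : 0 ≤ G (con F z) (fun C => f₀ (insert z C)) :=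
          sum_nonneg fun _ _ => sum_nonneg fun _ _ => sq_nonneg _
        simp only [sum_empty, inv_zero, zero_mul, sub_zero]
        positivity
      · have h3 : w F z * (∑ B ∈ F with z ∈ B, (f₀ B) ^ 2 -
            (w F z)⁻¹ * (∑ B ∈ F with z ∈ B, f₀ B) ^ 2) ≤
            w F z * (G (con F z) (fun C => f₀ (insert z C)) / 2) := by
          have e3 : w F z * (∑ B ∈ F with z ∈ B, (f₀ B) ^ 2 -
            (w F z)⁻¹ * (∑ B ∈ F with z ∈ B, f₀ B) ^ 2) =
            w F z * ∑ B ∈ F with z ∈ B, (f₀ B) ^ 2 - (∑ B ∈ F with z ∈ B, f₀ B) ^ 2 := by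
            rw [mul_sub, ← mul_assoc, mul_inv_cancel₀ hw.ne', one_mul]
          rw [e3]
          exact this
        exact le_of_mul_le_mul_left h3 hw
    have hsum := sum_le_sum fun z (_ : z ∈ (univ : Finset α)) => hind z
    rw [sum_sub_distrib, ← sum_div, sum_G_con h, sum_swap F (fun _ B => (f₀ B) ^ 2)] at hsum
    have e4 : ∑ B ∈ F, ∑ _z ∈ B, (f₀ B) ^ 2 = ((r : ℝ) + 2) * ∑ B ∈ F, (f₀ B) ^ 2 := by
      rw [mul_sum]
      refine sum_congr rfl fun B hB => ?_
      rw [sum_const, h.card B hB, nsmul_eq_mul]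
      push_cast; ring
    rw [e4] at hsum
    push_cast at hsum
    have h5 : ((r : ℝ) + 1) * ∑ B ∈ F, (f₀ B) ^ 2 ≤ ((r : ℝ) + 1) * (G F f₀ / 2) := by
      linarith
    have h6 : ∑ B ∈ F, (f₀ B) ^ 2 ≤ G F f₀ / 2 := le_of_mul_le_mul_left h5 (by positivity)
    nlinarith [mul_le_mul_of_nonneg_left h6 hN.le]

end Pool.Agent.H13R2.MB
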