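import Pool.Agent.H13R2.MB.Gap2

/-!
# Mixing of the lazy symmetric basis exchange walk, in integer form
-/

namespace Pool.Agent.H13R2.MB

set_option linter.unusedSectionVars false

open Finset

variable {α : Type*} [DecidableEq α]

/-- The neighbours of `B` in the basis exchange graph. -/
def nb (F : Finset (Finset α)) (B : Finset α) : Finset (Finset α) :=
  F.filter (fun C => (B \ C).card = 1)

/-- The number of ways (out of `A ^ t`) to be at `B` after `t` steps from `B₀`. -/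
def cnt (F : Finset (Finset α)) (A : ℕ) (B₀ : Finset α) : ℕ → Finset α → ℕ
  | 0, B => if B = B₀ then 1 else 0
  | t + 1, B => ∑ C ∈ nb F B, cnt F A B₀ t C + (A - (nb F B).card) * cnt F A B₀ t B

theorem sdiff_card_symm {B C : Finset α} (h : B.card = C.card) :
    (B \ C).card = (C \ B).card := by
  have h1 := card_sdiff_add_card_inter B C
  have h2 := card_sdiff_add_card_inter C B
  rw [inter_comm C B] at h2
  omega

/-- The Laplacian. -/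
noncomputable def Lap (F : Finset (Finset α)) (f : Finset α → ℝ) (B : Finset α) : ℝ :=
  ∑ C ∈ nb F B, (f B - f C)

theorem sum_nb_swap {F : Finset (Finset α)} {r : ℕ} (h : ∀ B ∈ F, B.card = r)
    (ψ : Finset α → Finset α → ℝ) :
    ∑ B ∈ F, ∑ C ∈ nb F B, ψ B C = ∑ B ∈ F, ∑ C ∈ nb F B, ψ C B := by
  refine sum_comm' ?_
  intro B C
  simp only [nb, mem_filter]
  constructor
  · rintro ⟨h1, h2, h3⟩
    refine ⟨⟨h1, ?_⟩, h2⟩
    rw [sdiff_card_symm ((h C h2).trans (h B h1).symm)]; exact h3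
  · rintro ⟨⟨h1, h2⟩, h3⟩
    refine ⟨h1, h3, ?_⟩
    rw [sdiff_card_symm ((h B h1).trans (h C h3).symm)]; exact h2

theorem sum_Lap {F : Finset (Finset α)} {r : ℕ} (h : ∀ B ∈ F, B.card = r)
    (f : Finset α → ℝ) : ∑ B ∈ F, Lap F f B = 0 := by
  unfold Lap
  have h1 := sum_nb_swap h (fun B _ => f B)
  simp only [sum_sub_distrib]
  rw [sum_nb_swap h (fun _ C => f C)]
  ring

theorem inner_Lap {F : Finset (Finset α)} {r : ℕ} (h : ∀ B ∈ F, B.card = r)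
    (f : Finset α → ℝ) : ∑ B ∈ F, f B * Lap F f B = G F f / 2 := by
  have h1 : G F f = ∑ B ∈ F, ∑ C ∈ nb F B, (f B - f C) ^ 2 := rfl
  have h2 : ∑ B ∈ F, ∑ C ∈ nb F B, (f B - f C) ^ 2 =
      ∑ B ∈ F, ∑ C ∈ nb F B, f B * (f B - f C) + ∑ B ∈ F, ∑ C ∈ nb F B, f C * (f C - f B) := by
    rw [← sum_add_distrib]
    refine sum_congr rfl fun B _ => ?_
    rw [← sum_add_distrib]
    refine sum_congr rfl fun C _ => ?_
    ring
  have h3 := sum_nb_swap h (fun B C => f B * (f B - f C))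
  rw [h1, h2, ← h3]
  unfold Lap
  simp only [mul_sum]
  ring

theorem norm_Lap {F : Finset (Finset α)} (A : ℝ) (hdeg : ∀ B ∈ F, 2 * ((nb F B).card : ℝ) ≤ A)
    (f : Finset α → ℝ) : ∑ B ∈ F, (Lap F f B) ^ 2 ≤ A * (G F f / 2) := by
  have h1 : ∀ B ∈ F, (Lap F f B) ^ 2 ≤ A / 2 * ∑ C ∈ nb F B, (f B - f C) ^ 2 := by
    intro B hB
    have h2 := sq_sum_le_card_mul_sum_sq (s := nb F B) (f := fun C => f B - f C)
    refine h2.trans (mul_le_mul_of_nonneg_right ?_ (sum_nonneg fun _ _ => sq_nonneg _))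
    linarith [hdeg B hB]
  refine (sum_le_sum h1).trans (le_of_eq ?_)
  rw [← mul_sum]
  have : G F f = ∑ B ∈ F, ∑ C ∈ nb F B, (f B - f C) ^ 2 := rfl
  rw [this]; ring

theorem cnt_step (F : Finset (Finset α)) (A : ℕ) (B₀ : Finset α) (t : ℕ) (B : Finset α)
    (hA : (nb F B).card ≤ A) (hA0 : 0 < A) :
    (cnt F A B₀ (t + 1) B : ℝ) / (A : ℝ) ^ (t + 1) =
      (cnt F A B₀ t B : ℝ) / (A : ℝ) ^ t -
        (A : ℝ)⁻¹ * Lap F (fun C => (cnt F A B₀ t C : ℝ) / (A : ℝ) ^ t) B := by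
  have hA' : (A : ℝ) ≠ 0 := by positivity
  have h1 : (cnt F A B₀ (t + 1) B : ℝ) =
      ∑ C ∈ nb F B, (cnt F A B₀ t C : ℝ) + ((A : ℝ) - (nb F B).card) * cnt F A B₀ t B := by
    rw [cnt]
    push_cast [Nat.cast_sub hA]
    ring
  unfold Lap
  rw [h1]
  simp only [sum_sub_distrib, sum_const, nsmul_eq_mul, ← sum_div]
  field_simp
  ring

variable [Fintype α]

theorem mixing {F : Finset (Finset α)} {r : ℕ} (h : IsBases F r) (A : ℕ) (hA0 : 0 < A)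
    (hdeg : ∀ B ∈ F, 2 * (nb F B).card ≤ A) (B₀ : Finset α) (hB₀ : B₀ ∈ F) (t : ℕ) :
    ∑ B ∈ F, ((cnt F A B₀ t B : ℝ) / (A : ℝ) ^ t) = 1 ∧
    ∑ B ∈ F, ((cnt F A B₀ t B : ℝ) / (A : ℝ) ^ t - (F.card : ℝ)⁻¹) ^ 2 ≤ (1 - (A : ℝ)⁻¹) ^ t := by
  have hN : (0 : ℝ) < F.card := by exact_mod_cast Finset.card_pos.2 ⟨B₀, hB₀⟩
  have hAr : (0 : ℝ) < A := by exact_mod_cast hA0
  induction t with
  | zero =>
    have e : ∀ B, ((cnt F A B₀ 0 B : ℕ) : ℝ) = if B = B₀ then 1 else 0 := by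
      intro B; rw [cnt]; split_ifs <;> simp
    constructor
    · simp only [e, pow_zero, div_one]
      rw [sum_ite_eq' F B₀ (fun _ => (1 : ℝ)), if_pos hB₀]
    · simp only [e, pow_zero, div_one]
      have e2 : ∀ B, ((if B = B₀ then (1 : ℝ) else 0) - (F.card : ℝ)⁻¹) ^ 2 =
          (if B = B₀ then (1 - 2 * (F.card : ℝ)⁻¹) else 0) + ((F.card : ℝ)⁻¹) ^ 2 := by
        intro B; split_ifs <;> ring
      simp only [e2, sum_add_distrib, sum_const, nsmul_eq_mul]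
      rw [sum_ite_eq' F B₀ (fun _ => (1 - 2 * (F.card : ℝ)⁻¹)), if_pos hB₀]
      have : (F.card : ℝ) * ((F.card : ℝ)⁻¹) ^ 2 = (F.card : ℝ)⁻¹ := by field_simp
      rw [this]
      have : 0 < (F.card : ℝ)⁻¹ := inv_pos.2 hN
      linarith
  | succ t ih =>
    obtain ⟨ih1, ih2⟩ := ih
    set u : Finset α → ℝ := fun B => (cnt F A B₀ t B : ℝ) / (A : ℝ) ^ t with hu
    have hstep : ∀ B ∈ F, (cnt F A B₀ (t + 1) B : ℝ) / (A : ℝ) ^ (t + 1) =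
        u B - (A : ℝ)⁻¹ * Lap F u B := fun B hB =>
      cnt_step F A B₀ t B (by have := hdeg B hB; omega) hA0
    have hs1 : ∑ B ∈ F, ((cnt F A B₀ (t + 1) B : ℝ) / (A : ℝ) ^ (t + 1)) = 1 := by
      rw [sum_congr rfl hstep, sum_sub_distrib, ← mul_sum, sum_Lap h.card]
      have : ∑ B ∈ F, u B = 1 := ih1
      rw [this]; ring
    refine ⟨hs1, ?_⟩
    set f : Finset α → ℝ := fun B => u B - (F.card : ℝ)⁻¹ with hf
    have hLap : ∀ B, Lap F f B = Lap F u B := by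
      intro B
      unfold Lap
      refine sum_congr rfl fun C _ => ?_
      simp only [hf]; ring
    have hf0 : ∑ B ∈ F, f B = 0 := by
      simp only [hf, sum_sub_distrib, sum_const, nsmul_eq_mul]
      have : ∑ B ∈ F, u B = 1 := ih1
      rw [this]
      field_simp; ring
    have e1 : ∑ B ∈ F, ((cnt F A B₀ (t + 1) B : ℝ) / (A : ℝ) ^ (t + 1) - (F.card : ℝ)⁻¹) ^ 2 =
        ∑ B ∈ F, (f B) ^ 2 - 2 * (A : ℝ)⁻¹ * ∑ B ∈ F, f B * Lap F f B +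
          ((A : ℝ)⁻¹) ^ 2 * ∑ B ∈ F, (Lap F f B) ^ 2 := by
      rw [mul_sum, mul_sum, ← sum_sub_distrib, ← sum_add_distrib]
      refine sum_congr rfl fun B hB => ?_
      rw [hstep B hB, hLap]
      simp only [hf]
      ring
    have h1 := gap r F h f
    rw [hf0] at h1
    have h2 : ∑ B ∈ F, (f B) ^ 2 ≤ G F f / 2 := by
      have : (F.card : ℝ) * ∑ B ∈ F, (f B) ^ 2 ≤ (F.card : ℝ) * (G F f / 2) := by linarith
      exact le_of_mul_le_mul_left this hN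
    have h3 := norm_Lap (F := F) (A : ℝ) (fun B hB => by exact_mod_cast hdeg B hB) f
    rw [e1, inner_Lap h.card]
    have hAi : 0 < (A : ℝ)⁻¹ := inv_pos.2 hAr
    have h4 : ((A : ℝ)⁻¹) ^ 2 * ∑ B ∈ F, (Lap F f B) ^ 2 ≤ (A : ℝ)⁻¹ * (G F f / 2) := by
      have := mul_le_mul_of_nonneg_left h3 (sq_nonneg (A : ℝ)⁻¹)
      have e : ((A : ℝ)⁻¹) ^ 2 * (A * (G F f / 2)) = (A : ℝ)⁻¹ * (G F f / 2) := by
        field_simp
      rw [e] at this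
      exact this
    have h5 : (A : ℝ)⁻¹ * ∑ B ∈ F, (f B) ^ 2 ≤ (A : ℝ)⁻¹ * (G F f / 2) :=
      mul_le_mul_of_nonneg_left h2 hAi.le
    have h6 : (0 : ℝ) ≤ 1 - (A : ℝ)⁻¹ := by
      have : (1 : ℝ) ≤ A := by exact_mod_cast hA0
      have := inv_le_one_of_one_le₀ this
      linarith
    have h7 : (1 - (A : ℝ)⁻¹) * ∑ B ∈ F, (f B) ^ 2 ≤ (1 - (A : ℝ)⁻¹) * (1 - (A : ℝ)⁻¹) ^ t :=
      mul_le_mul_of_nonneg_left ih2 h6
    have e9 : (1 - (A : ℝ)⁻¹) ^ (t + 1) = (1 - (A : ℝ)⁻¹) * (1 - (A : ℝ)⁻¹) ^ t := pow_succ' _ _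
    rw [e9]
    linarith

/-- Integer form of the mixing estimate. -/
theorem cnt_le {F : Finset (Finset α)} {r : ℕ} (h : IsBases F r) (A : ℕ) (hA0 : 0 < A)
    (hdeg : ∀ B ∈ F, 2 * (nb F B).card ≤ A) (B₀ : Finset α) (hB₀ : B₀ ∈ F) (k m t : ℕ)
    (hm : F.card ≤ 2 ^ m) (ht : 2 * A * (k + m) ≤ t) (B : Finset α) (hB : B ∈ F) :
    F.card * (2 ^ k - 1) * cnt F A B₀ t B ≤ 2 ^ k * A ^ t := by
  have hN : (0 : ℝ) < F.card := by exact_mod_cast Finset.card_pos.2 ⟨B₀, hB₀⟩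
  have hAr : (0 : ℝ) < A := by exact_mod_cast hA0
  obtain ⟨_, h2⟩ := mixing h A hA0 hdeg B₀ hB₀ t
  have h3 : ((cnt F A B₀ t B : ℝ) / (A : ℝ) ^ t - (F.card : ℝ)⁻¹) ^ 2 ≤ (1 - (A : ℝ)⁻¹) ^ t :=
    (single_le_sum (f := fun B => ((cnt F A B₀ t B : ℝ) / (A : ℝ) ^ t - (F.card : ℝ)⁻¹) ^ 2)
      (fun _ _ => sq_nonneg _) hB).trans h2
  have h4 : (1 - (A : ℝ)⁻¹) ^ t ≤ ((1 / 2 : ℝ) ^ (k + m)) ^ 2 := by
    have e1 : (1 - (A : ℝ)⁻¹) ≤ Real.exp (-(A : ℝ)⁻¹) := by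
      have := Real.add_one_le_exp (-(A : ℝ)⁻¹)
      linarith
    have h6 : (0 : ℝ) ≤ 1 - (A : ℝ)⁻¹ := by
      have : (1 : ℝ) ≤ A := by exact_mod_cast hA0
      have := inv_le_one_of_one_le₀ this
      linarith
    have e2 : (1 - (A : ℝ)⁻¹) ^ t ≤ Real.exp (-(t : ℝ) * (A : ℝ)⁻¹) := by
      refine (pow_le_pow_left₀ h6 e1 t).trans (le_of_eq ?_)
      rw [← Real.exp_nat_mul]
      congr 1
      ring
    refine e2.trans ?_
    have e3 : Real.exp (-(t : ℝ) * (A : ℝ)⁻¹) ≤ Real.exp (-(2 * (k + m : ℝ))) := by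
      apply Real.exp_le_exp.2
      have : (2 : ℝ) * A * (k + m) ≤ t := by exact_mod_cast ht
      have h8 : 2 * (k + m : ℝ) ≤ t * (A : ℝ)⁻¹ := by
        rw [← div_eq_mul_inv, le_div_iff₀ hAr]
        linarith
      linarith
    refine e3.trans ?_
    have e4 : Real.exp (-1 : ℝ) ≤ 1 / 2 := by
      have h9 : (2 : ℝ) ≤ Real.exp 1 := by
        have := Real.add_one_le_exp (1 : ℝ)
        linarith
      rw [Real.exp_neg, inv_eq_one_div]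
      exact one_div_le_one_div_of_le (by norm_num) h9
    have e5 : Real.exp (-(2 * (k + m : ℝ))) = ((Real.exp (-1)) ^ (k + m)) ^ 2 := by
      rw [← pow_mul, ← Real.exp_nat_mul]
      congr 1
      push_cast
      ring
    rw [e5]
    have h10 : 0 ≤ Real.exp (-1) := (Real.exp_pos _).le
    exact pow_le_pow_left₀ (pow_nonneg h10 _) (pow_le_pow_left₀ h10 e4 _) 2
  have h5 : (cnt F A B₀ t B : ℝ) / (A : ℝ) ^ t - (F.card : ℝ)⁻¹ ≤ (1 / 2 : ℝ) ^ (k + m) :=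
    le_of_abs_le (abs_le_of_sq_le_sq (h3.trans h4) (by positivity))
  have h7 : (1 / 2 : ℝ) ^ (k + m) ≤ (1 / 2 : ℝ) ^ k * (F.card : ℝ)⁻¹ := by
    rw [pow_add]
    refine mul_le_mul_of_nonneg_left ?_ (by positivity)
    rw [one_div, inv_pow]
    exact inv_anti₀ hN (by exact_mod_cast hm)
  have hAt : (0 : ℝ) < (A : ℝ) ^ t := pow_pos hAr t
  have h8 : (cnt F A B₀ t B : ℝ) ≤ (F.card : ℝ)⁻¹ * (1 + (1 / 2 : ℝ) ^ k) * (A : ℝ) ^ t := by
    have : (cnt F A B₀ t B : ℝ) / (A : ℝ) ^ t ≤ (F.card : ℝ)⁻¹ * (1 + (1 / 2 : ℝ) ^ k) := by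
      nlinarith
    rwa [div_le_iff₀ hAt] at this
  have h2k : (1 : ℝ) ≤ 2 ^ k := one_le_pow₀ (by norm_num)
  have h9 : (F.card : ℝ) * (2 ^ k - 1) * cnt F A B₀ t B ≤ 2 ^ k * (A : ℝ) ^ t := by
    have e1 : (F.card : ℝ) * (2 ^ k - 1) * cnt F A B₀ t B ≤
        (F.card : ℝ) * (2 ^ k - 1) * ((F.card : ℝ)⁻¹ * (1 + (1 / 2 : ℝ) ^ k) * (A : ℝ) ^ t) :=
      mul_le_mul_of_nonneg_left h8 (mul_nonneg hN.le (by linarith))
    refine e1.trans ?_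
    have e2 : (F.card : ℝ) * (2 ^ k - 1) * ((F.card : ℝ)⁻¹ * (1 + (1 / 2 : ℝ) ^ k) * (A : ℝ) ^ t) =
        ((2 ^ k - 1) * (1 + (1 / 2 : ℝ) ^ k)) * (A : ℝ) ^ t := by
      field_simp
    rw [e2]
    refine mul_le_mul_of_nonneg_right ?_ hAt.le
    have e3 : (2 : ℝ) ^ k * (1 / 2 : ℝ) ^ k = 1 := by
      rw [← mul_pow]; norm_num
    have e4 : (0 : ℝ) ≤ (1 / 2 : ℝ) ^ k := by positivity
    nlinarith
  have h10 : ((F.card * (2 ^ k - 1) * cnt F A B₀ t B : ℕ) : ℝ) ≤ ((2 ^ k * A ^ t : ℕ) : ℝ) := by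
    push_cast [Nat.cast_sub (Nat.one_le_two_pow (n := k))]
    exact h9
  exact_mod_cast h10

end Pool.Agent.H13R2.MB
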